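import Mathlib
import Pool.Agent.Y826.Z.Defs
import Pool.Agent.Y826.Z.Defs2

/-! Project Y826/ZL (helper826): the version for linear forms `a n + b` of the project Y826/Z
(`W` squarefree here).  Definitions. -/

open Finset Filter

namespace Pool.Agent.Y826.ZL

open Pool.Agent.Y826.Z

/-- the divisibility conditions of a tuple -/
def Cd {K : ℕ} (h : Fin K → ℤ × ℤ) (x : Fin K → ℕ) (n : ℕ) : Prop := ∀ j, (x j : ℤ) ∣ (h j).1 * (n : ℤ) + (h j).2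

/-- the fixed data: linear forms `h` (slope and constant term), the class `b` mod `W` -/
structure Hyp {K : ℕ} (h : Fin K → ℤ × ℤ) (W b : ℕ) : Prop where
  wpos : 0 < W
  wsf : Squarefree W
  bW : b.Coprime W
  h0 : ∀ p : ℕ, p.Prime → ¬ p ∣ W → ∀ j, ¬ (p : ℤ) ∣ (h j).1
  h1 : ∀ p : ℕ, p.Prime → ¬ p ∣ W → ∀ j, ¬ (p : ℤ) ∣ (h j).2

/-- the class of the tuple `q` minus its mean over the classes which agree at the smooth part -/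
noncomputable def dl {K : ℕ} (h : Fin K → ℤ × ℤ) (W b D : ℕ) (q : Fin K → ℕ) (n : ℕ) : ℝ :=
  ind (n ≡ b [MOD W] ∧ Cd h q n) -
    (1 / (Nat.totient (Pr (ro D q)) : ℝ)) *
      ind (n ≡ b [MOD W] ∧ Cd h (sm D q) n ∧ n.Coprime (Pr (ro D q)))

/-- left condition: the class mod `W` and the tuples `a`, `r` -/
def Lc {K : ℕ} (h : Fin K → ℤ × ℤ) (W b : ℕ) (a r : Fin K → ℕ) (x : ℕ) : Prop :=
  x ≡ b [MOD W] ∧ Cd h a x ∧ Cd h r x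

/-- right factor: the class of `u, v` minus the mean over the coprime classes -/
noncomputable def Du {K : ℕ} (h : Fin K → ℤ × ℤ) (u v : Fin K → ℕ) (x : ℕ) : ℝ :=
  ind (Cd h u x ∧ Cd h v x) - (1 / (Nat.totient (Pr u * Pr v) : ℝ)) * ind (x.Coprime (Pr u * Pr v))

/-- the sum over `m` as a combination of phases in `n₁` -/
def S_PH : Prop := ∀ (K : ℕ) (h : Fin K → ℤ × ℤ) (W b : ℕ), Hyp h W b → ∀ (a r u1 u2 : Fin K → ℕ) (l : ℤ) (M : ℕ),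
  Squarefree (W * Pr a * Pr r * Pr u1 * Pr u2) →
  ∃ (n : ℕ) (ω : Fin n → ℝ) (A : Fin n → (p : ℕ) → ZMod p)
    (Z : Fin n → (Fin K → ℕ) → (Fin K → ℕ) → ℤ → ℤ → ℂ),
    (∑ ξ, |ω ξ| ≤ 4) ∧
    (∀ ξ (p : ℕ), p.Prime → p ∣ Pr r * Pr u1 * Pr u2 → A ξ p ≠ 0) ∧
    (∀ ξ v1 v2 k x, ‖Z ξ v1 v2 k x‖ ≤ 1) ∧
    (∀ ξ v1 v2 k x, Z ξ v1 v2 k (x + ((W * Pr a * Pr v1 * Pr v2 : ℕ) : ℤ)) = Z ξ v1 v2 k x) ∧
    ∀ v1 v2 : Fin K → ℕ, Squarefree (W * Pr a * Pr r * Pr u1 * Pr u2 * Pr v1 * Pr v2) →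
    ∀ n1 n2 : ℕ, (n2 : ℤ) = n1 + l * ((W * Pr a * Pr r : ℕ) : ℤ) →
      ((∑ m ∈ Ioc M (2 * M), ind (Lc h W b a r (m * n1)) * Du h u1 v1 (m * n1) * Du h u2 v2 (m * n2) : ℝ) : ℂ) =
      ∑ ξ, (ω ξ : ℂ) * ∑ k ∈ freq (W * Pr a * Pr r * Pr u1 * Pr u2 * Pr v1 * Pr v2),
        Ih M (W * Pr a * Pr r * Pr u1 * Pr u2 * Pr v1 * Pr v2) k * Z ξ v1 v2 k n1 *
        PH (Pr r * Pr u1 * Pr u2).primeFactors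
          (fun p => (k : ZMod p) * ((W * Pr a * Pr r * Pr u1 * Pr u2 * Pr v1 * Pr v2 / p : ℕ) : ZMod p)⁻¹ * A ξ p)
          (fun p => if p ∣ Pr u2 then ((l * ((W * Pr a * Pr r : ℕ) : ℤ) : ℤ) : ZMod p) else 0) n1

section
variable {K : ℕ} (h : Fin K → ℤ × ℤ) (W b M N : ℕ) (SA SB SU SV : Finset (Fin K → ℕ))
    (th : (Fin K → ℕ) → ℝ) (c : (Fin K → ℕ) → (Fin K → ℕ) → (Fin K → ℕ) → (Fin K → ℕ) → ℝ) (β : ℕ → ℝ)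

/-- the dispersion sum -/
noncomputable def SS : ℝ :=
  ∑ a ∈ SA, ∑ r ∈ SB, th a * ∑ m ∈ Ioc M (2 * M),
    (∑ u ∈ SU, ∑ v ∈ SV, ∑ n ∈ Ioc N (2 * N),
      c a r u v * β n * ind (Lc h W b a r (m * n)) * Du h u v (m * n)) ^ 2

/-- its part with coprime right moduli and different `n₁, n₂` -/
noncomputable def Soff : ℝ :=
  ∑ a ∈ SA, ∑ r ∈ SB, th a *
    ∑ u1 ∈ SU, ∑ v1 ∈ SV, ∑ u2 ∈ SU, ∑ v2 ∈ SV,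
      ind ((Pr u1 * Pr v1).Coprime (Pr u2 * Pr v2)) * (c a r u1 v1 * c a r u2 v2 *
      ∑ n1 ∈ Ioc N (2 * N), ∑ n2 ∈ Ioc N (2 * N),
        ind (n1 ≠ n2 ∧ n1 ≡ n2 [MOD (W * Pr a * Pr r)]) * (β n1 * β n2 *
          ∑ m ∈ Ioc M (2 * M), ind (Lc h W b a r (m * n1)) * Du h u1 v1 (m * n1) * Du h u2 v2 (m * n2)))

end

/-- the off-diagonal terms -/
def S_OFF : Prop := ∀ (K : ℕ) (h : Fin K → ℤ × ℤ) (W b : ℕ), Hyp h W b → ∀ δ : ℝ, 0 < δ → ∃ ε : ℝ, 0 < ε ∧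
  ∀ᶠ X : ℝ in atTop, ∀ (M N : ℕ) (RA RB E U V : ℝ), Sz δ X M N RA RB E U V →
  ∀ (G : Finset (Fin K)) (SA SB SU SV : Finset (Fin K → ℕ)) (th : (Fin K → ℕ) → ℝ)
    (c : (Fin K → ℕ) → (Fin K → ℕ) → (Fin K → ℕ) → (Fin K → ℕ) → ℝ),
    Fm ε X W RA RB E U V G SA SB SU SV th c →
  ∀ β : ℕ → ℝ, (∀ n ∈ Ioc N (2 * N), |β n| ≤ X ^ ε) →
    |Soff h W b M N SA SB SU SV th c β| ≤ X ^ (-ε) * (M * (N : ℝ) ^ 2 / (RA * RB))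

/-- the diagonal terms and the terms whose right moduli have a common prime factor -/
def S_TRIV : Prop := ∀ (K : ℕ) (h : Fin K → ℤ × ℤ) (W b : ℕ), Hyp h W b → ∀ δ : ℝ, 0 < δ → ∃ ε : ℝ, 0 < ε ∧
  ∀ A : ℕ, ∃ B0 : ℕ, ∀ B : ℕ, B0 ≤ B →
  ∀ᶠ X : ℝ in atTop, ∀ (M N : ℕ) (RA RB E U V : ℝ), Sz δ X M N RA RB E U V →
  ∀ (G : Finset (Fin K)) (SA SB SU SV : Finset (Fin K → ℕ)) (th : (Fin K → ℕ) → ℝ)
    (c : (Fin K → ℕ) → (Fin K → ℕ) → (Fin K → ℕ) → (Fin K → ℕ) → ℝ),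
    Fm ε X W RA RB E U V G SA SB SU SV th c →
    (∀ u ∈ SU, ∀ p : ℕ, p.Prime → p ∣ Pr u → D0 X B < p) →
    (∀ v ∈ SV, ∀ p : ℕ, p.Prime → p ∣ Pr v → D0 X B < p) →
  ∀ β : ℕ → ℝ, (∀ n ∈ Ioc N (2 * N), |β n| ≤ tau n * Real.log X) →
    |SS h W b M N SA SB SU SV th c β - Soff h W b M N SA SB SU SV th c β| ≤
      (M * (N : ℝ) ^ 2 / (RA * RB)) / (Real.log X) ^ A

/-- bilinear forms -/
def S_TII : Prop := ∀ (K : ℕ) (h : Fin K → ℤ × ℤ) (W b : ℕ), Hyp h W b → ∀ δ : ℝ, 0 < δ → ∃ ε : ℝ, 0 < ε ∧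
  ∀ A : ℕ, ∃ B0 : ℕ, ∀ B : ℕ, B0 ≤ B →
  ∀ᶠ X : ℝ in atTop, ∀ (M N : ℕ) (Q : Fin K → ℝ) (g : Fin K → Fin 5), (∀ j, 0 < Q j) →
    Sz δ X M N (szg Q g 0) (szg Q g 1) (szg Q g 2) (szg Q g 3) (szg Q g 4) →
  ∀ S : Finset (Fin K → ℕ), (∀ q ∈ S, Squarefree (W * Pr q) ∧ (∀ j, Q j < q j ∧ (q j : ℝ) ≤ 2 * Q j) ∧
      (Pr (sm (D0 X B) q) : ℝ) ≤ X ^ ε) →
  ∀ c : (Fin K → ℕ) → ℝ, (∀ q, |c q| ≤ 1) →
  ∀ α β : ℕ → ℝ, (∀ m ∈ Ioc M (2 * M), |α m| ≤ tau m * Real.log X) →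
    (∀ n ∈ Ioc N (2 * N), |β n| ≤ tau n * Real.log X) →
    |∑ q ∈ S, c q * ∑ m ∈ Ioc M (2 * M), ∑ n ∈ Ioc N (2 * N), α m * β n * dl h W b (D0 X B) q (m * n)| ≤
      X / (Real.log X) ^ A

end Pool.Agent.Y826.ZL
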