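import Mathlib
import Pool.Agent.Y826.ZL.Defs2

/-! Project Y826/Z, job OB (helper520): splitting of the off-diagonal terms by the difference of `n₁, n₂`. -/

open Finset Filter

namespace Pool.Agent.Y826.ZL.OB

open Pool.Agent.Y826.Z

/-- nonzero shifts -/
noncomputable def Ls (L : ℕ) : Finset ℤ := (Icc (-(L : ℤ)) L).filter (fun l => l ≠ 0)

lemma card_Ls (L : ℕ) : ((Ls L).card : ℝ) ≤ 2 * L := by
  have h1 : (Ls L) = (Icc (-(L : ℤ)) L).erase 0 := by
    ext l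
    unfold Ls
    rw [Finset.mem_filter, Finset.mem_erase]
    tauto
  have h2 : (Ls L).card = 2 * L := by
    rw [h1, Finset.card_erase_of_mem (by rw [Finset.mem_Icc]; omega), Int.card_Icc]
    omega
  rw [h2]
  push_cast
  exact le_refl _

lemma ind_nonneg (P : Prop) : 0 ≤ ind P := by unfold ind; split_ifs <;> norm_num

lemma ind_le_one (P : Prop) : ind P ≤ 1 := by unfold ind; split_ifs <;> norm_num

lemma ind_true {P : Prop} (h : P) : ind P = 1 := by unfold ind; rw [if_pos h]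

lemma ind_false {P : Prop} (h : ¬ P) : ind P = 0 := by unfold ind; rw [if_neg h]

lemma ind_sum (N t L : ℕ) (ht : 0 < t) (hL : N / t ≤ L) (n1 n2 : ℕ) (h1 : n1 ∈ Ioc N (2 * N))
    (h2 : n2 ∈ Ioc N (2 * N)) :
    ind (n1 ≠ n2 ∧ n1 ≡ n2 [MOD t]) = ∑ l ∈ Ls L, ind ((n2 : ℤ) = n1 + l * (t : ℤ)) := by
  rw [Finset.mem_Ioc] at h1 h2
  have htz : (0 : ℤ) < t := by exact_mod_cast ht
  by_cases hc : n1 ≠ n2 ∧ n1 ≡ n2 [MOD t]
  · rw [ind_true hc]
    obtain ⟨hne, hmod⟩ := hc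
    have hd : (t : ℤ) ∣ (n2 : ℤ) - n1 := (Nat.modEq_iff_dvd.1 hmod)
    obtain ⟨l, hl⟩ := hd
    have hl0 : l ≠ 0 := by
      rintro rfl
      apply hne
      have : (n2 : ℤ) - n1 = 0 := by rw [hl]; ring
      omega
    have hlL : l ∈ Ls L := by
      unfold Ls
      rw [Finset.mem_filter, Finset.mem_Icc]
      have h3 : |l| * t ≤ N := by
        have : |l| * t = |(n2 : ℤ) - n1| := by
          rw [hl, abs_mul, abs_of_pos htz]; ring
        rw [this, abs_le]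
        constructor <;> omega
      have h4 : l.natAbs ≤ N / t := by
        rw [Nat.le_div_iff_mul_le ht]
        have : ((l.natAbs * t : ℕ) : ℤ) ≤ N := by
          push_cast
          exact h3
        exact_mod_cast this
      have h5 : l.natAbs ≤ L := h4.trans hL
      refine ⟨⟨?_, ?_⟩, hl0⟩ <;> omega
    rw [Finset.sum_eq_single l]
    · rw [ind_true]
      linarith
    · intro l' _ hne'
      apply ind_false
      intro h6
      apply hne'
      have h7 : l' * (t : ℤ) = l * t := by linarith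
      exact mul_right_cancel₀ htz.ne' h7
    · intro h8
      exact absurd hlL h8
  · rw [ind_false hc]
    symm
    apply Finset.sum_eq_zero
    intro l hl
    unfold Ls at hl
    rw [Finset.mem_filter] at hl
    apply ind_false
    intro h6
    apply hc
    constructor
    · intro h7
      rw [h7] at h6
      have : l * (t : ℤ) = 0 := by linarith
      rcases mul_eq_zero.1 this with h8 | h8
      · exact hl.2 h8
      · omega
    · exact Nat.modEq_iff_dvd.2 ⟨l, by linarith⟩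

section
variable {K : ℕ} (h : Fin K → ℤ × ℤ) (W b M N : ℕ) (SA SB SU SV : Finset (Fin K → ℕ))
    (th : (Fin K → ℕ) → ℝ) (c : (Fin K → ℕ) → (Fin K → ℕ) → (Fin K → ℕ) → (Fin K → ℕ) → ℝ) (β : ℕ → ℝ)

/-- the coefficient of the pair `v₁, v₂` -/
noncomputable def kap (a r u1 u2 v1 v2 : Fin K → ℕ) : ℝ :=
  ind ((Pr u1 * Pr v1).Coprime (Pr u2 * Pr v2)) * (c a r u1 v1 * c a r u2 v2)

/-- the sum for fixed outer variables -/
noncomputable def TT (a r u1 u2 : Fin K → ℕ) (l : ℤ) : ℝ :=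
  ∑ v1 ∈ SV, ∑ v2 ∈ SV, kap c a r u1 u2 v1 v2 * ∑ n1 ∈ Ioc N (2 * N), ∑ n2 ∈ Ioc N (2 * N),
      ind ((n2 : ℤ) = n1 + l * ((W * Pr a * Pr r : ℕ) : ℤ)) * (β n1 * β n2 *
        ∑ m ∈ Ioc M (2 * M), ind (Lc h W b a r (m * n1)) * Du h u1 v1 (m * n1) * Du h u2 v2 (m * n2))

lemma soff_eq (L : ℕ) (hp : ∀ a ∈ SA, ∀ r ∈ SB, 0 < W * Pr a * Pr r ∧ N / (W * Pr a * Pr r) ≤ L) :
    Soff h W b M N SA SB SU SV th c β =
      ∑ a ∈ SA, ∑ r ∈ SB, th a * ∑ u1 ∈ SU, ∑ u2 ∈ SU, ∑ l ∈ Ls L, TT h W b M N SV c β a r u1 u2 l := by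
  unfold Soff
  refine Finset.sum_congr rfl fun a ha => Finset.sum_congr rfl fun r hr => ?_
  obtain ⟨ht, hL⟩ := hp a ha r hr
  congr 1
  refine Finset.sum_congr rfl fun u1 _ => ?_
  rw [Finset.sum_comm]
  refine Finset.sum_congr rfl fun u2 _ => ?_
  unfold TT
  symm
  rw [Finset.sum_comm]
  refine Finset.sum_congr rfl fun v1 _ => ?_
  rw [Finset.sum_comm]
  refine Finset.sum_congr rfl fun v2 _ => ?_
  rw [← Finset.mul_sum]
  unfold kap
  rw [mul_assoc]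
  congr 2
  rw [Finset.sum_comm]
  refine Finset.sum_congr rfl fun n1 hn1 => ?_
  rw [Finset.sum_comm]
  refine Finset.sum_congr rfl fun n2 hn2 => ?_
  rw [← Finset.sum_mul, ind_sum N (W * Pr a * Pr r) L ht hL n1 n2 hn1 hn2]

lemma kap_le (hc : ∀ a r u v, |c a r u v| ≤ 1) (a r u1 u2 v1 v2 : Fin K → ℕ) :
    |kap c a r u1 u2 v1 v2| ≤ 1 := by
  unfold kap
  rw [abs_mul, abs_mul, abs_of_nonneg (ind_nonneg _)]
  have h1 := ind_le_one ((Pr u1 * Pr v1).Coprime (Pr u2 * Pr v2))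
  have h2 := ind_nonneg ((Pr u1 * Pr v1).Coprime (Pr u2 * Pr v2))
  have h3 : |c a r u1 v1| * |c a r u2 v2| ≤ 1 :=
    mul_le_one₀ (hc _ _ _ _) (abs_nonneg _) (hc _ _ _ _)
  exact mul_le_one₀ h1 (by positivity) h3

lemma kap_sf (hs : ∀ a r u v, c a r u v ≠ 0 → Squarefree (W * Pr a * Pr r * Pr u * Pr v))
    (a r u1 u2 v1 v2 : Fin K → ℕ) (hk : kap c a r u1 u2 v1 v2 ≠ 0) :
    Squarefree (W * Pr a * Pr r * Pr u1 * Pr u2 * Pr v1 * Pr v2) := by
  unfold kap at hk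
  have h1 : (Pr u1 * Pr v1).Coprime (Pr u2 * Pr v2) := by
    by_contra h
    rw [ind_false h] at hk
    simp at hk
  have h2 : c a r u1 v1 ≠ 0 := by
    rintro h
    rw [h] at hk
    simp at hk
  have h3 : c a r u2 v2 ≠ 0 := by
    rintro h
    rw [h] at hk
    simp at hk
  have s1 := hs _ _ _ _ h2
  have s2 := hs _ _ _ _ h3
  have e1 : W * Pr a * Pr r * Pr u1 * Pr v1 = (W * Pr a * Pr r) * (Pr u1 * Pr v1) := by ring
  have e2 : W * Pr a * Pr r * Pr u2 * Pr v2 = (W * Pr a * Pr r) * (Pr u2 * Pr v2) := by ring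
  have e3 : W * Pr a * Pr r * Pr u1 * Pr u2 * Pr v1 * Pr v2 =
    ((W * Pr a * Pr r) * (Pr u1 * Pr v1)) * (Pr u2 * Pr v2) := by ring
  rw [e1] at s1
  rw [e2] at s2
  rw [e3]
  have s3 := (Nat.squarefree_mul_iff.1 s2)
  rw [Nat.squarefree_mul_iff]
  refine ⟨?_, s1, s3.2.2⟩
  exact Nat.Coprime.mul_left s3.1 h1

end

end Pool.Agent.Y826.ZL.OB
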