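import Mathlib
import Pool.Agent.Y826.Z.OB1
import Pool.Agent.Y826.ZL.OB2

/-! Project Y826/Z, job OB (helper520): sums over the outer variables. -/

open Finset Filter

namespace Pool.Agent.Y826.ZL.OB

open Pool.Agent.Y826.Z Pool.Agent.Y826.Z.OB

lemma card_tuple {K : ℕ} (S : Finset (Fin K → ℕ)) (R Λ : ℝ) (hR0 : 0 ≤ R) (hΛ : 0 ≤ Λ)
    (hR : ∀ x ∈ S, (Pr x : ℝ) ≤ R) (h0 : ∀ x ∈ S, Pr x ≠ 0)
    (hB : ∀ n : ℕ, n ≠ 0 → (n : ℝ) ≤ R → tau n ^ K ≤ Λ) : (S.card : ℝ) ≤ Λ * R := by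
  have h1 := sum_tuple S R Λ hR h0 hB (fun _ => 1) (fun _ => zero_le_one)
  simp only [Finset.sum_const, nsmul_eq_mul, mul_one, Nat.card_Icc, Nat.add_sub_cancel] at h1
  exact h1.trans (mul_le_mul_of_nonneg_left (Nat.floor_le hR0) hΛ)

lemma gcd_tuple {K : ℕ} (S : Finset (Fin K → ℕ)) (R Λ : ℝ) (hR0 : 0 ≤ R) (hΛ : 0 ≤ Λ)
    (hR : ∀ x ∈ S, (Pr x : ℝ) ≤ R) (h0 : ∀ x ∈ S, Pr x ≠ 0)
    (hB : ∀ n : ℕ, n ≠ 0 → (n : ℝ) ≤ R → tau n ^ K ≤ Λ) (D : ℕ) (hD : D ≠ 0) (hτ : tau D ≤ Λ) :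
    ∑ x ∈ S, (Nat.gcd D (Pr x) : ℝ) ≤ Λ * (Λ * R) := by
  have h1 := sum_tuple S R Λ hR h0 hB (fun n => (Nat.gcd D n : ℝ)) (fun _ => by positivity)
  refine h1.trans (mul_le_mul_of_nonneg_left ?_ hΛ)
  exact (sum_gcd D hD R hR0).trans (mul_le_mul_of_nonneg_right hτ hR0)

/-- the outer variables without the shift -/
noncomputable def OO {K : ℕ} (SA SB SU : Finset (Fin K → ℕ)) :
    Finset ((Fin K → ℕ) × (Fin K → ℕ) × (Fin K → ℕ) × (Fin K → ℕ)) := SA ×ˢ SB ×ˢ SU ×ˢ SU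

/-- product of three greatest common divisors -/
noncomputable def g3 {K : ℕ} (D : ℕ) (o : (Fin K → ℕ) × (Fin K → ℕ) × (Fin K → ℕ) × (Fin K → ℕ)) : ℝ :=
  (Nat.gcd D (Pr o.2.1) : ℝ) * ((Nat.gcd D (Pr o.2.2.1) : ℝ) * (Nat.gcd D (Pr o.2.2.2) : ℝ))

lemma sum_g3 {K : ℕ} (SA SB SU : Finset (Fin K → ℕ)) (D : ℕ) :
    ∑ o ∈ OO SA SB SU, g3 D o = (SA.card : ℝ) * ((∑ r ∈ SB, (Nat.gcd D (Pr r) : ℝ)) *
      ((∑ u ∈ SU, (Nat.gcd D (Pr u) : ℝ)) * (∑ u ∈ SU, (Nat.gcd D (Pr u) : ℝ)))) := by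
  unfold OO g3
  rw [Finset.sum_product]
  simp only
  rw [Finset.sum_const, nsmul_eq_mul]
  congr 1
  rw [Finset.sum_product, Finset.sum_mul]
  refine Finset.sum_congr rfl fun r _ => ?_
  simp only
  rw [← Finset.mul_sum, Finset.sum_product, Finset.sum_mul]
  congr 1
  refine Finset.sum_congr rfl fun u _ => ?_
  simp only
  rw [← Finset.mul_sum]

lemma g3_ge_one {K : ℕ} (D : ℕ) (hD : D ≠ 0)
    (o : (Fin K → ℕ) × (Fin K → ℕ) × (Fin K → ℕ) × (Fin K → ℕ)) : 1 ≤ g3 D o := by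
  unfold g3
  have h : ∀ n : ℕ, (1 : ℝ) ≤ (Nat.gcd D n : ℝ) := by
    intro n
    have : 0 < Nat.gcd D n := Nat.gcd_pos_of_pos_left _ (Nat.pos_of_ne_zero hD)
    exact_mod_cast this
  have h1 := h (Pr o.2.1)
  have h2 := h (Pr o.2.2.1)
  have h3 := h (Pr o.2.2.2)
  calc (1 : ℝ) = 1 * (1 * 1) := by norm_num
    _ ≤ _ := mul_le_mul h1 (mul_le_mul h2 h3 zero_le_one (by linarith)) (by norm_num) (by linarith)

/-- the bound of one pair -/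
lemma Bd_le (N : ℕ) (Λ RA RB U V E B : ℝ) (W Pa Pr' Pu1 Pu2 D : ℕ) (Dz : ℤ) (hD : D = Dz.natAbs) (hD0 : D ≠ 0)
    (hΛ : 1 ≤ Λ) (hRA : 0 < RA) (hRB : 0 < RB) (hU : 0 < U) (hV : 0 < V) (hE : 0 < E) (hE4 : E ^ 4 = RB * U ^ 2)
    (hW : (W : ℝ) ≤ Λ) (hPa : (Pa : ℝ) ≤ RA * Λ) (hPr : (Pr' : ℝ) ≤ RB * Λ) (hPr2 : RB / Λ ≤ Pr')
    (hPu1 : (Pu1 : ℝ) ≤ U * Λ) (hPu12 : U / Λ ≤ Pu1)
    (hPu2 : (Pu2 : ℝ) ≤ U * Λ) (hPu22 : U / Λ ≤ Pu2)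
    (hB : B = Real.sqrt (N * (RA * V ^ 4)) + Real.sqrt N * E + N / E) :
    Bd N ((W * Pa : ℝ) * (V * Λ) ^ 4) ((Pr' * Pu1 * Pu2 : ℕ) : ℝ)
      (Int.gcd Dz ((Pr' * Pu1 * Pu2 : ℕ) : ℤ)) ≤
      Λ ^ 3 * B * ((Nat.gcd D Pr' : ℝ) * ((Nat.gcd D Pu1 : ℝ) * (Nat.gcd D Pu2 : ℝ))) := by
  have hΛ0 : 0 < Λ := by linarith
  unfold Bd
  set g : ℝ := (Int.gcd Dz ((Pr' * Pu1 * Pu2 : ℕ) : ℤ) : ℝ) with hg
  set G : ℝ := (Nat.gcd D Pr' : ℝ) * ((Nat.gcd D Pu1 : ℝ) * (Nat.gcd D Pu2 : ℝ)) with hG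
  have hgn : (Int.gcd Dz ((Pr' * Pu1 * Pu2 : ℕ) : ℤ)) = Nat.gcd D (Pr' * Pu1 * Pu2) := by
    rw [hD]; rfl
  have hg1 : 1 ≤ g := by
    rw [hg, hgn]
    have : 0 < Nat.gcd D (Pr' * Pu1 * Pu2) := Nat.gcd_pos_of_pos_left _ (Nat.pos_of_ne_zero hD0)
    exact_mod_cast this
  have hgG : g ≤ G := by
    rw [hg, hgn, hG]
    have h1 : Nat.gcd D (Pr' * Pu1 * Pu2) ≤ Nat.gcd D Pr' * (Nat.gcd D Pu1 * Nat.gcd D Pu2) := by
      have hpos : 0 < Nat.gcd D Pr' * (Nat.gcd D Pu1 * Nat.gcd D Pu2) := by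
        have a1 := Nat.gcd_pos_of_pos_left Pr' (Nat.pos_of_ne_zero hD0)
        have a2 := Nat.gcd_pos_of_pos_left Pu1 (Nat.pos_of_ne_zero hD0)
        have a3 := Nat.gcd_pos_of_pos_left Pu2 (Nat.pos_of_ne_zero hD0)
        positivity
      apply Nat.le_of_dvd hpos
      rw [mul_assoc]
      exact (Nat.gcd_mul_right_dvd_mul_gcd D Pr' (Pu1 * Pu2)).trans
        (Nat.mul_dvd_mul_left _ (Nat.gcd_mul_right_dvd_mul_gcd D Pu1 Pu2))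
    exact_mod_cast h1
  have hG1 : 1 ≤ G := hg1.trans hgG
  set d : ℝ := ((Pr' * Pu1 * Pu2 : ℕ) : ℝ) with hd
  have hdle : d ≤ (E * Λ) ^ 4 := by
    rw [hd]
    push_cast
    calc (Pr' : ℝ) * Pu1 * Pu2 ≤ (RB * Λ) * (U * Λ) * (U * Λ) := by gcongr
      _ = RB * U ^ 2 * Λ ^ 3 := by ring
      _ ≤ RB * U ^ 2 * Λ ^ 4 := by
          apply mul_le_mul_of_nonneg_left (pow_le_pow_right₀ hΛ (by norm_num)) (by positivity)
      _ = (E * Λ) ^ 4 := by rw [← hE4]; ring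
  have hdge : (E / Λ) ^ 4 ≤ d := by
    rw [hd]
    push_cast
    calc (E / Λ) ^ 4 = RB * U ^ 2 / Λ ^ 4 := by rw [div_pow, hE4]
      _ ≤ RB * U ^ 2 / Λ ^ 3 := by
          apply div_le_div_of_nonneg_left (by positivity) (by positivity)
            (pow_le_pow_right₀ hΛ (by norm_num))
      _ = (RB / Λ) * (U / Λ) * (U / Λ) := by field_simp
      _ ≤ (Pr' : ℝ) * Pu1 * Pu2 := by gcongr
  have hdpos : 0 < d := lt_of_lt_of_le (by positivity) hdge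
  have hd1 : d ^ (1 / 4 : ℝ) ≤ E * Λ := by
    have : ((E * Λ) ^ 4 : ℝ) ^ (1 / 4 : ℝ) = E * Λ := by
      rw [← Real.rpow_natCast, ← Real.rpow_mul (by positivity)]
      norm_num
    rw [← this]
    exact Real.rpow_le_rpow hdpos.le hdle (by norm_num)
  have hd2 : E / Λ ≤ d ^ (1 / 4 : ℝ) := by
    have : ((E / Λ) ^ 4 : ℝ) ^ (1 / 4 : ℝ) = E / Λ := by
      rw [← Real.rpow_natCast, ← Real.rpow_mul (by positivity)]
      norm_num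
    rw [← this]
    exact Real.rpow_le_rpow (by positivity) hdge (by norm_num)
  have hg4 : g ^ (1 / 4 : ℝ) ≤ G := by
    refine le_trans ?_ hgG
    calc g ^ (1 / 4 : ℝ) ≤ g ^ (1 : ℝ) := Real.rpow_le_rpow_of_exponent_le hg1 (by norm_num)
      _ = g := Real.rpow_one g
  have hs1 : Real.sqrt (N * ((W * Pa : ℝ) * (V * Λ) ^ 4)) ≤ Λ ^ 3 * Real.sqrt (N * (RA * V ^ 4)) := by
    have h1 : Real.sqrt (N * ((W * Pa : ℝ) * (V * Λ) ^ 4)) ≤ Real.sqrt ((Λ ^ 3) ^ 2 * (N * (RA * V ^ 4))) := by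
      apply Real.sqrt_le_sqrt
      calc (N : ℝ) * ((W * Pa : ℝ) * (V * Λ) ^ 4) ≤ N * ((Λ * (RA * Λ)) * (V * Λ) ^ 4) := by gcongr
        _ = (Λ ^ 3) ^ 2 * (N * (RA * V ^ 4)) := by ring
    rw [Real.sqrt_mul (by positivity : (0 : ℝ) ≤ (Λ ^ 3) ^ 2), Real.sqrt_sq (by positivity)] at h1
    exact h1
  have hN0 : (0 : ℝ) ≤ N := Nat.cast_nonneg N
  have hs2 : Real.sqrt N * (d ^ (1 / 4 : ℝ) + Real.sqrt N / d ^ (1 / 4 : ℝ)) ≤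
      Λ * (Real.sqrt N * E + N / E) := by
    have h1 : Real.sqrt N / d ^ (1 / 4 : ℝ) ≤ Real.sqrt N / (E / Λ) :=
      div_le_div_of_nonneg_left (Real.sqrt_nonneg _) (by positivity) hd2
    have h2 : Real.sqrt N * (d ^ (1 / 4 : ℝ) + Real.sqrt N / d ^ (1 / 4 : ℝ)) ≤
        Real.sqrt N * (E * Λ + Real.sqrt N / (E / Λ)) :=
      mul_le_mul_of_nonneg_left (add_le_add hd1 h1) (Real.sqrt_nonneg _)
    refine h2.trans (le_of_eq ?_)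
    have h3 : Real.sqrt N * Real.sqrt N = N := Real.mul_self_sqrt hN0
    have h4 : Real.sqrt N * (Real.sqrt N / (E / Λ)) = Λ * (N / E) := by
      rw [← mul_div_assoc, h3]
      field_simp
    rw [mul_add, h4]
    ring
  have hT0 : 0 ≤ Real.sqrt N * (d ^ (1 / 4 : ℝ) + Real.sqrt N / d ^ (1 / 4 : ℝ)) := by positivity
  have hΛ3 : Λ ≤ Λ ^ 3 := by
    calc Λ = Λ ^ 1 := (pow_one _).symm
      _ ≤ Λ ^ 3 := pow_le_pow_right₀ hΛ (by norm_num)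
  have hR0 : 0 ≤ Real.sqrt N * E + N / E := by positivity
  have hG0 : 0 ≤ G := by linarith
  calc Real.sqrt (N * ((W * Pa : ℝ) * (V * Λ) ^ 4)) +
        g ^ (1 / 4 : ℝ) * (Real.sqrt N * (d ^ (1 / 4 : ℝ) + Real.sqrt N / d ^ (1 / 4 : ℝ)))
      ≤ Λ ^ 3 * Real.sqrt (N * (RA * V ^ 4)) * G + G * (Λ ^ 3 * (Real.sqrt N * E + N / E)) := by
        apply add_le_add
        · refine hs1.trans ?_
          exact le_mul_of_one_le_right (by positivity) hG1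
        · exact mul_le_mul hg4 (hs2.trans (mul_le_mul_of_nonneg_right hΛ3 hR0)) hT0 hG0
    _ = Λ ^ 3 * B * G := by rw [hB]; ring

end Pool.Agent.Y826.ZL.OB
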