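import Mathlib
import Pool.Agent.Y826.ZL.OB3

/-! Project Y826/Z, job OB (helper520): Cauchy-Schwarz over the outer variables and the final inequality. -/

open Finset Filter

namespace Pool.Agent.Y826.ZL.OB

open Pool.Agent.Y826.Z Pool.Agent.Y826.Z.OB

lemma le_of_sq {a b : ℝ} (h : a ^ 2 ≤ b ^ 2) (hb : 0 ≤ b) : a ≤ b :=
  (le_abs_self a).trans (abs_le_of_sq_le_sq h hb)

lemma sum_sqrt_le {ι : Type*} (s : Finset ι) (F : ι → ℝ) (hF : ∀ i ∈ s, 0 ≤ F i) (Q Y : ℝ) (hQ : 0 ≤ Q)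
    (hY : 0 ≤ Y) (h1 : (s.card : ℝ) ≤ Q) (h2 : ∑ i ∈ s, F i ≤ Q * Y) :
    ∑ i ∈ s, Real.sqrt (F i) ≤ Q * Real.sqrt Y := by
  have h3 : (∑ i ∈ s, Real.sqrt (F i)) ^ 2 ≤ (Q * Real.sqrt Y) ^ 2 := by
    have h4 := Finset.sum_mul_sq_le_sq_mul_sq s (fun _ => (1 : ℝ)) (fun i => Real.sqrt (F i))
    simp only [one_mul, one_pow, Finset.sum_const, nsmul_eq_mul, mul_one] at h4
    refine h4.trans ?_
    have h5 : ∑ i ∈ s, Real.sqrt (F i) ^ 2 = ∑ i ∈ s, F i :=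
      Finset.sum_congr rfl fun i hi => Real.sq_sqrt (hF i hi)
    rw [h5, mul_pow, Real.sq_sqrt hY]
    calc (s.card : ℝ) * ∑ i ∈ s, F i ≤ Q * (Q * Y) :=
          mul_le_mul h1 h2 (Finset.sum_nonneg hF) hQ
      _ = Q ^ 2 * Y := by ring
  exact le_of_sq h3 (by positivity)

/-- the radicand of the bound for fixed outer variables -/
noncomputable def FF {K : ℕ} (N W : ℕ) (V1 : ℝ) (SV : Finset (Fin K → ℕ)) (i : ℕ)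
    (o : (Fin K → ℕ) × (Fin K → ℕ) × (Fin K → ℕ) × (Fin K → ℕ)) : ℝ :=
  N * (N * (((Ix i SV ×ˢ Ix i SV).filter (fun p => Dt p.1 p.2 = 0)).card : ℝ) +
        ∑ p ∈ (Ix i SV ×ˢ Ix i SV).filter (fun p => Dt p.1 p.2 ≠ 0),
          Bd N ((W * Pr o.1 : ℝ) * V1 ^ 4) ((Pr o.2.1 * Pr o.2.2.1 * Pr o.2.2.2 : ℕ) : ℝ)
            (Int.gcd (Dt p.1 p.2) ((Pr o.2.1 * Pr o.2.2.1 * Pr o.2.2.2 : ℕ) : ℤ)))

lemma Bd_nonneg (N D d g : ℝ) (hg : 0 ≤ g) (hd : 0 ≤ d) : 0 ≤ Bd N D d g := by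
  unfold Bd; positivity

lemma FF_nonneg {K : ℕ} (N W : ℕ) (V1 : ℝ) (SV : Finset (Fin K → ℕ)) (i : ℕ)
    (o : (Fin K → ℕ) × (Fin K → ℕ) × (Fin K → ℕ) × (Fin K → ℕ)) : 0 ≤ FF N W V1 SV i o := by
  unfold FF
  apply mul_nonneg (Nat.cast_nonneg _)
  apply add_nonneg (by positivity)
  exact Finset.sum_nonneg fun p _ => Bd_nonneg _ _ _ _ (Nat.cast_nonneg _) (Nat.cast_nonneg _)

/-- the sum over the outer variables of the square roots -/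
lemma sum_sqrt_FF {K : ℕ} (N W : ℕ) (Λ RA RB U V E B Q Z P : ℝ) (SA SB SU SV : Finset (Fin K → ℕ)) (i : ℕ)
    (hΛ : 1 ≤ Λ) (hRA : 0 < RA) (hRB : 0 < RB) (hU : 0 < U) (hV : 0 < V) (hE : 0 < E) (hE4 : E ^ 4 = RB * U ^ 2)
    (hW : (W : ℝ) ≤ Λ)
    (hPa : ∀ a ∈ SA, (Pr a : ℝ) ≤ RA * Λ)
    (hPr : ∀ r ∈ SB, (Pr r : ℝ) ≤ RB * Λ) (hPr2 : ∀ r ∈ SB, RB / Λ ≤ Pr r)
    (hPu : ∀ u ∈ SU, (Pr u : ℝ) ≤ U * Λ) (hPu2 : ∀ u ∈ SU, U / Λ ≤ Pr u)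
    (hB : B = Real.sqrt (N * (RA * V ^ 4)) + Real.sqrt N * E + N / E)
    (hZ : (((Ix i SV ×ˢ Ix i SV).filter (fun p => Dt p.1 p.2 = 0)).card : ℝ) ≤ Z)
    (hP : (((Ix i SV ×ˢ Ix i SV).filter (fun p => Dt p.1 p.2 ≠ 0)).card : ℝ) ≤ P)
    (hQ0 : 0 ≤ Q)
    (hQ : ∀ D : ℕ, D ≠ 0 → (D = 1 ∨ ∃ p ∈ Ix i SV ×ˢ Ix i SV, D = (Dt p.1 p.2).natAbs) →
      ∑ o ∈ OO SA SB SU, g3 D o ≤ Q) :
    ∑ o ∈ OO SA SB SU, Real.sqrt (FF N W (V * Λ) SV i o) ≤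
      Q * Real.sqrt (N * (N * Z + P * (Λ ^ 3 * B))) := by
  have hΛ0 : 0 < Λ := by linarith
  have hB0 : 0 ≤ B := by rw [hB]; positivity
  have hN0 : (0 : ℝ) ≤ N := Nat.cast_nonneg N
  have hZ0 : 0 ≤ Z := le_trans (Nat.cast_nonneg _) hZ
  have hP0 : 0 ≤ P := le_trans (Nat.cast_nonneg _) hP
  have hcard : ((OO SA SB SU).card : ℝ) ≤ Q := by
    refine le_trans ?_ (hQ 1 one_ne_zero (Or.inl rfl))
    have : ((OO SA SB SU).card : ℝ) = ∑ o ∈ OO SA SB SU, (1 : ℝ) := by simp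
    rw [this]
    exact Finset.sum_le_sum fun o _ => g3_ge_one 1 one_ne_zero o
  refine sum_sqrt_le _ _ (fun o _ => FF_nonneg _ _ _ _ _ _) Q _ hQ0 (by positivity) hcard ?_
  unfold FF
  rw [← Finset.mul_sum, Finset.sum_add_distrib, Finset.sum_const, nsmul_eq_mul, Finset.sum_comm]
  have h1 : ∀ p ∈ (Ix i SV ×ˢ Ix i SV).filter (fun p => Dt p.1 p.2 ≠ 0),
      ∑ o ∈ OO SA SB SU, Bd N ((W * Pr o.1 : ℝ) * (V * Λ) ^ 4) ((Pr o.2.1 * Pr o.2.2.1 * Pr o.2.2.2 : ℕ) : ℝ)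
            (Int.gcd (Dt p.1 p.2) ((Pr o.2.1 * Pr o.2.2.1 * Pr o.2.2.2 : ℕ) : ℤ)) ≤ Λ ^ 3 * B * Q := by
    intro p hp
    rw [Finset.mem_filter] at hp
    have hD0 : (Dt p.1 p.2).natAbs ≠ 0 := Int.natAbs_ne_zero.2 hp.2
    have h2 : ∀ o ∈ OO SA SB SU,
        Bd N ((W * Pr o.1 : ℝ) * (V * Λ) ^ 4) ((Pr o.2.1 * Pr o.2.2.1 * Pr o.2.2.2 : ℕ) : ℝ)
            (Int.gcd (Dt p.1 p.2) ((Pr o.2.1 * Pr o.2.2.1 * Pr o.2.2.2 : ℕ) : ℤ)) ≤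
        Λ ^ 3 * B * g3 (Dt p.1 p.2).natAbs o := by
      intro o ho
      unfold OO at ho
      rw [Finset.mem_product, Finset.mem_product, Finset.mem_product] at ho
      obtain ⟨ha, hr, hu1, hu2⟩ := ho
      exact Bd_le N Λ RA RB U V E B W (Pr o.1) (Pr o.2.1) (Pr o.2.2.1) (Pr o.2.2.2) _ (Dt p.1 p.2) rfl hD0
        hΛ hRA hRB hU hV hE hE4 hW (hPa _ ha) (hPr _ hr) (hPr2 _ hr) (hPu _ hu1) (hPu2 _ hu1)
        (hPu _ hu2) (hPu2 _ hu2) hB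
    refine (Finset.sum_le_sum h2).trans ?_
    rw [← Finset.mul_sum]
    exact mul_le_mul_of_nonneg_left (hQ _ hD0 (Or.inr ⟨p, hp.1, rfl⟩)) (by positivity)
  have h3 := Finset.sum_le_sum h1
  rw [Finset.sum_const, nsmul_eq_mul] at h3
  have h4 : ((((Ix i SV ×ˢ Ix i SV).filter (fun p => Dt p.1 p.2 ≠ 0)).card : ℕ) : ℝ) * (Λ ^ 3 * B * Q) ≤
      P * (Λ ^ 3 * B * Q) := mul_le_mul_of_nonneg_right hP (by positivity)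
  have h5 : ((OO SA SB SU).card : ℝ) *
      (N * (((Ix i SV ×ˢ Ix i SV).filter (fun p => Dt p.1 p.2 = 0)).card : ℝ)) ≤ Q * (N * Z) :=
    mul_le_mul hcard (mul_le_mul_of_nonneg_left hZ hN0) (by positivity) hQ0
  calc (N : ℝ) * (_ + _) ≤ N * (Q * (N * Z) + P * (Λ ^ 3 * B * Q)) :=
        mul_le_mul_of_nonneg_left (add_le_add h5 (h3.trans h4)) hN0
    _ = Q * (N * (N * Z + P * (Λ ^ 3 * B))) := by ring

lemma pow4_le {a b : ℝ} (ha : 0 ≤ a) (hb : 0 ≤ b) (h : a ^ 4 ≤ b ^ 4) : a ≤ b :=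
  (pow_le_pow_iff_left₀ ha hb (by norm_num)).1 h

/-- the final inequality -/
lemma fin_ineq (M N RA RB U V E B H Λ q0 : ℝ) (hM : 0 < M) (hN : 0 < N) (hRA : 0 < RA) (hRB : 0 < RB)
    (hU : 0 < U) (hV : 0 < V) (hE : 0 < E) (hE4 : E ^ 4 = RB * U ^ 2) (hΛ : 4 ≤ Λ)
    (hB : B = Real.sqrt (N * (RA * V ^ 4)) + Real.sqrt N * E + N / E)
    (hH1 : 1 ≤ H) (hH : RA * RB * U ^ 2 * V ^ 2 / M ≤ H)
    (hq : q0 = RA * RB * U ^ 2 * V ^ 2 / Λ ^ 6)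
    (s2 : RA * RB * U ^ 2 * Λ ^ 1000 ≤ M)
    (s3 : RA * V ^ 4 * H ^ 4 * Λ ^ 1000 ≤ N)
    (s4 : RB * U ^ 2 * H ^ 8 * Λ ^ 1000 ≤ N ^ 2)
    (s5 : H ^ 8 * Λ ^ 1000 ≤ RB * U ^ 2) :
    Λ ^ 21 * (N * U ^ 2) * Real.sqrt ((M / q0) * (N ^ 2 * V ^ 2 * Λ ^ 7) + N * V ^ 4 * Λ ^ 15 * B) ≤
      M * N ^ 2 / (RA * RB) := by
  have hΛ0 : 0 < Λ := by linarith
  have hΛ1 : 1 ≤ Λ := by linarith
  have hH0 : 0 < H := by linarith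
  have hB0 : 0 ≤ B := by rw [hB]; positivity
  have hle : ∀ {m n : ℕ}, m ≤ n → Λ ^ m ≤ Λ ^ n := fun h => pow_le_pow_right₀ hΛ1 h
  -- the three parts of B
  have ha : Real.sqrt (N * (RA * V ^ 4)) * (H ^ 2 * Λ ^ 100) ≤ N := by
    have h1 : (Real.sqrt (N * (RA * V ^ 4)) * (H ^ 2 * Λ ^ 100)) ^ 2 ≤ N ^ 2 := by
      rw [mul_pow, Real.sq_sqrt (by positivity)]
      calc N * (RA * V ^ 4) * (H ^ 2 * Λ ^ 100) ^ 2 = N * (RA * V ^ 4 * H ^ 4 * Λ ^ 200) := by ring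
        _ ≤ N * (RA * V ^ 4 * H ^ 4 * Λ ^ 1000) := by
            have := hle (show 200 ≤ 1000 by norm_num)
            gcongr
        _ ≤ N * N := by gcongr
        _ = N ^ 2 := by ring
    exact le_of_sq h1 hN.le
  have hb : Real.sqrt N * E * (H ^ 2 * Λ ^ 100) ≤ N := by
    have h1 : E * (H ^ 2 * Λ ^ 100) ≤ Real.sqrt N := by
      apply pow4_le (by positivity) (Real.sqrt_nonneg _)
      have h2 : Real.sqrt N ^ 4 = N ^ 2 := by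
        rw [show (4 : ℕ) = 2 * 2 by norm_num, pow_mul, Real.sq_sqrt hN.le]
      rw [h2]
      calc (E * (H ^ 2 * Λ ^ 100)) ^ 4 = E ^ 4 * H ^ 8 * Λ ^ 400 := by ring
        _ = RB * U ^ 2 * H ^ 8 * Λ ^ 400 := by rw [hE4]
        _ ≤ RB * U ^ 2 * H ^ 8 * Λ ^ 1000 := by
            have := hle (show 400 ≤ 1000 by norm_num)
            gcongr
        _ ≤ N ^ 2 := s4
    calc Real.sqrt N * E * (H ^ 2 * Λ ^ 100) = Real.sqrt N * (E * (H ^ 2 * Λ ^ 100)) := by ring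
      _ ≤ Real.sqrt N * Real.sqrt N := mul_le_mul_of_nonneg_left h1 (Real.sqrt_nonneg _)
      _ = N := Real.mul_self_sqrt hN.le
  have hc : N / E * (H ^ 2 * Λ ^ 100) ≤ N := by
    have h1 : H ^ 2 * Λ ^ 100 ≤ E := by
      apply pow4_le (by positivity) hE.le
      calc (H ^ 2 * Λ ^ 100) ^ 4 = H ^ 8 * Λ ^ 400 := by ring
        _ ≤ H ^ 8 * Λ ^ 1000 := by
            have := hle (show 400 ≤ 1000 by norm_num)
            gcongr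
        _ ≤ E ^ 4 := by rw [hE4]; exact s5
    calc N / E * (H ^ 2 * Λ ^ 100) ≤ N / E * E := by gcongr
      _ = N := by field_simp
  have hBH : B * (H ^ 2 * Λ ^ 100) ≤ 3 * N := by
    rw [hB, add_mul, add_mul]
    linarith
  -- part one
  have hM2 : 0 < M / (RA * RB) := by positivity
  have p1 : Λ ^ 42 * U ^ 4 * ((M / q0) * (N ^ 2 * V ^ 2 * Λ ^ 7)) ≤ 1 / 2 * (M * N / (RA * RB)) ^ 2 := by
    rw [hq]
    have h1 : Λ ^ 42 * U ^ 4 * ((M / (RA * RB * U ^ 2 * V ^ 2 / Λ ^ 6)) * (N ^ 2 * V ^ 2 * Λ ^ 7)) =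
        (M * N ^ 2 / (RA * RB) ^ 2) * (RA * RB * U ^ 2 * Λ ^ 55) := by
      field_simp
    rw [h1]
    have h2 : RA * RB * U ^ 2 * Λ ^ 55 ≤ 1 / 2 * M := by
      have h3 : Λ ^ 1000 = Λ ^ 55 * Λ ^ 945 := by rw [← pow_add]
      have h4 : (2 : ℝ) ≤ Λ ^ 945 := by
        calc (2 : ℝ) ≤ Λ ^ 1 := by rw [pow_one]; linarith
          _ ≤ Λ ^ 945 := hle (by norm_num)
      have h5 : RA * RB * U ^ 2 * Λ ^ 55 * 2 ≤ RA * RB * U ^ 2 * Λ ^ 1000 := by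
        rw [h3, ← mul_assoc]
        gcongr
      linarith
    calc (M * N ^ 2 / (RA * RB) ^ 2) * (RA * RB * U ^ 2 * Λ ^ 55) ≤
        (M * N ^ 2 / (RA * RB) ^ 2) * (1 / 2 * M) := by gcongr
      _ = 1 / 2 * (M * N / (RA * RB)) ^ 2 := by rw [div_pow]; ring
  have p2 : Λ ^ 42 * U ^ 4 * (N * V ^ 4 * Λ ^ 15 * B) ≤ 1 / 2 * (M * N / (RA * RB)) ^ 2 := by
    have h1 : U ^ 2 * V ^ 2 ≤ H * (M / (RA * RB)) := by
      rw [div_le_iff₀ hM] at hH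
      rw [mul_div_assoc', le_div_iff₀ (by positivity)]
      linarith
    have h2 : U ^ 4 * V ^ 4 ≤ H ^ 2 * (M / (RA * RB)) ^ 2 := by
      calc U ^ 4 * V ^ 4 = (U ^ 2 * V ^ 2) ^ 2 := by ring
        _ ≤ (H * (M / (RA * RB))) ^ 2 := by gcongr
        _ = _ := by ring
    have h3 : Λ ^ 57 * (B * H ^ 2) ≤ 1 / 2 * N := by
      have h4 : Λ ^ 100 = Λ ^ 57 * Λ ^ 43 := by rw [← pow_add]
      have h5 : (6 : ℝ) ≤ Λ ^ 43 := by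
        calc (6 : ℝ) ≤ Λ ^ 2 := by nlinarith
          _ ≤ Λ ^ 43 := hle (by norm_num)
      have h57 : 0 ≤ Λ ^ 57 := by positivity
      have h6 : Λ ^ 57 * (B * H ^ 2) * 6 ≤ B * (H ^ 2 * Λ ^ 100) := by
        rw [h4]
        generalize Λ ^ 57 = x at *
        generalize Λ ^ 43 = y at *
        calc x * (B * H ^ 2) * 6 ≤ x * (B * H ^ 2) * y :=
              mul_le_mul_of_nonneg_left h5 (by positivity)
          _ = B * (H ^ 2 * (x * y)) := by ring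
      linarith
    calc Λ ^ 42 * U ^ 4 * (N * V ^ 4 * Λ ^ 15 * B) = (U ^ 4 * V ^ 4) * (N * (Λ ^ 57 * B)) := by ring
      _ ≤ (H ^ 2 * (M / (RA * RB)) ^ 2) * (N * (Λ ^ 57 * B)) := by gcongr
      _ = (M / (RA * RB)) ^ 2 * N * (Λ ^ 57 * (B * H ^ 2)) := by ring
      _ ≤ (M / (RA * RB)) ^ 2 * N * (1 / 2 * N) := by gcongr
      _ = 1 / 2 * (M * N / (RA * RB)) ^ 2 := by rw [div_pow, div_pow]; ring
  set Y : ℝ := (M / q0) * (N ^ 2 * V ^ 2 * Λ ^ 7) + N * V ^ 4 * Λ ^ 15 * B with hY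
  have hq0 : 0 < q0 := by rw [hq]; positivity
  have hY0 : 0 ≤ Y := by rw [hY]; positivity
  have h7 : (Λ ^ 21 * U ^ 2 * Real.sqrt Y) ^ 2 ≤ (M * N / (RA * RB)) ^ 2 := by
    rw [mul_pow, Real.sq_sqrt hY0]
    calc (Λ ^ 21 * U ^ 2) ^ 2 * Y = Λ ^ 42 * U ^ 4 * ((M / q0) * (N ^ 2 * V ^ 2 * Λ ^ 7)) +
          Λ ^ 42 * U ^ 4 * (N * V ^ 4 * Λ ^ 15 * B) := by rw [hY]; ring
      _ ≤ 1 / 2 * (M * N / (RA * RB)) ^ 2 + 1 / 2 * (M * N / (RA * RB)) ^ 2 := add_le_add p1 p2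
      _ = _ := by ring
  have h8 : Λ ^ 21 * U ^ 2 * Real.sqrt Y ≤ M * N / (RA * RB) :=
    le_of_sq h7 (by positivity)
  calc Λ ^ 21 * (N * U ^ 2) * Real.sqrt Y = N * (Λ ^ 21 * U ^ 2 * Real.sqrt Y) := by ring
    _ ≤ N * (M * N / (RA * RB)) := by gcongr
    _ = M * N ^ 2 / (RA * RB) := by ring

end Pool.Agent.Y826.ZL.OB
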