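import Mathlib
import Pool.Agent.Y826.ZL.OB5

/-! Project Y826/Z, job OB (helper520): the off-diagonal terms, deterministic theorem. -/

open Finset Filter

namespace Pool.Agent.Y826.ZL.OB

open Pool.Agent.Y826.Z Pool.Agent.Y826.Z.OB

open Classical in
/-- the conclusion of `S_OA` for fixed data -/
def OAI {K : ℕ} (h : Fin K → ℤ × ℤ) (W b M N : ℕ) (X C Λ : ℝ) (SV : Finset (Fin K → ℕ)) (β : ℕ → ℝ) : Prop :=
  ∀ (a r u1 u2 : Fin K → ℕ) (l : ℤ) (κ : (Fin K → ℕ) → (Fin K → ℕ) → ℝ) (V1 q0 b0 : ℝ),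
  Squarefree (W * Pr a * Pr r * Pr u1 * Pr u2) →
  (∀ v ∈ SV, (Pr v : ℝ) ≤ V1) → (W * Pr a : ℝ) * V1 ^ 4 ≤ N → 0 < q0 → (∀ v1 v2, |κ v1 v2| ≤ 1) →
  (∀ v1 ∈ SV, ∀ v2 ∈ SV, κ v1 v2 ≠ 0 → Squarefree (W * Pr a * Pr r * Pr u1 * Pr u2 * Pr v1 * Pr v2) ∧
    q0 ≤ ((W * Pr a * Pr r * Pr u1 * Pr u2 * Pr v1 * Pr v2 : ℕ) : ℝ) ∧
    ((W * Pr a * Pr r * Pr u1 * Pr u2 * Pr v1 * Pr v2 : ℕ) : ℝ) ≤ X) →
  (∀ n ∈ Ioc N (2 * N), |β n| ≤ b0) →
  |∑ v1 ∈ SV, ∑ v2 ∈ SV, κ v1 v2 * ∑ n1 ∈ Ioc N (2 * N), ∑ n2 ∈ Ioc N (2 * N),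
      ind ((n2 : ℤ) = n1 + l * ((W * Pr a * Pr r : ℕ) : ℤ)) * (β n1 * β n2 *
        ∑ m ∈ Ioc M (2 * M), ind (Lc h W b a r (m * n1)) * Du h u1 v1 (m * n1) * Du h u2 v2 (m * n2))| ≤
    C * Λ * b0 ^ 2 * ∑ i ∈ range (Nat.log 2 ⌊X⌋₊ + 2), min (M / q0) (1 / (2 : ℝ) ^ i) *
      Real.sqrt (N * (N * (((Ix i SV ×ˢ Ix i SV).filter (fun p => Dt p.1 p.2 = 0)).card : ℝ) +
        ∑ p ∈ (Ix i SV ×ˢ Ix i SV).filter (fun p => Dt p.1 p.2 ≠ 0),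
          Bd N ((W * Pr a : ℝ) * V1 ^ 4) ((Pr r * Pr u1 * Pr u2 : ℕ) : ℝ)
            (Int.gcd (Dt p.1 p.2) ((Pr r * Pr u1 * Pr u2 : ℕ) : ℤ))))

lemma Pr_pos_of {K : ℕ} {x : Fin K → ℕ} {t : ℝ} (ht : 0 < t) (h : t ≤ (Pr x : ℝ)) : Pr x ≠ 0 := by
  rintro h0
  rw [h0] at h
  push_cast at h
  linarith

theorem main_det {K : ℕ} (h : Fin K → ℤ × ℤ) (W b M N : ℕ) (SA SB SU SV : Finset (Fin K → ℕ))
    (th : (Fin K → ℕ) → ℝ) (c : (Fin K → ℕ) → (Fin K → ℕ) → (Fin K → ℕ) → (Fin K → ℕ) → ℝ) (β : ℕ → ℝ)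
    (Λ X C RA RB U V H : ℝ) (hX : 256 ≤ X) (hΛ : 4 ≤ Λ) (hΛX : Λ ^ 2 ≤ X) (hW0 : 0 < W) (hWΛ : (W : ℝ) ≤ Λ)
    (hC1 : 1 ≤ C) (hCΛ : C ≤ Λ) (hI : ((Nat.log 2 ⌊X ^ 3⌋₊ + 2 : ℕ) : ℝ) ≤ Λ)
    (hτ : ∀ n : ℕ, n ≠ 0 → (n : ℝ) ≤ X ^ 10 → tau n ^ (2 * K + 1) ≤ Λ)
    (hMN : (M : ℝ) * N ≤ 16 * X) (hM : 0 < M) (hN : 0 < N)
    (hRA : 0 < RA) (hRB : 0 < RB) (hU : 0 < U) (hV : 0 < V)
    (hH1 : 1 ≤ H) (hH : RA * RB * U ^ 2 * V ^ 2 / M ≤ H)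
    (s1 : RA * RB * Λ ^ 1000 ≤ N) (s2 : RA * RB * U ^ 2 * Λ ^ 1000 ≤ M)
    (s3 : RA * V ^ 4 * H ^ 4 * Λ ^ 1000 ≤ N) (s4 : RB * U ^ 2 * H ^ 8 * Λ ^ 1000 ≤ (N : ℝ) ^ 2)
    (s5 : H ^ 8 * Λ ^ 1000 ≤ RB * U ^ 2)
    (hcb : ∀ a r u v, |c a r u v| ≤ 1)
    (hcs : ∀ a r u v, c a r u v ≠ 0 → Squarefree (W * Pr a * Pr r * Pr u * Pr v))
    (hth : ∀ a ∈ SA, |th a| ≤ Λ)
    (hPa : ∀ a ∈ SA, (Pr a : ℝ) ≤ RA * Λ) (hPa2 : ∀ a ∈ SA, RA / Λ ≤ Pr a)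
    (hPr : ∀ r ∈ SB, (Pr r : ℝ) ≤ RB * Λ) (hPr2 : ∀ r ∈ SB, RB / Λ ≤ Pr r)
    (hPu : ∀ u ∈ SU, (Pr u : ℝ) ≤ U * Λ) (hPu2 : ∀ u ∈ SU, U / Λ ≤ Pr u)
    (hPv : ∀ v ∈ SV, (Pr v : ℝ) ≤ V * Λ) (hPv2 : ∀ v ∈ SV, V / Λ ≤ Pr v)
    (hβ : ∀ n ∈ Ioc N (2 * N), |β n| ≤ Λ)
    (hOA : OAI h W b M N (X ^ 3) C Λ SV β) :
    |Soff h W b M N SA SB SU SV th c β| ≤ Λ⁻¹ * (M * (N : ℝ) ^ 2 / (RA * RB)) := by
  classical
  have hΛ0 : 0 < Λ := by linarith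
  have hΛ1 : 1 ≤ Λ := by linarith
  have hMr : (0 : ℝ) < M := by exact_mod_cast hM
  have hNr : (0 : ℝ) < N := by exact_mod_cast hN
  have hM1 : (1 : ℝ) ≤ M := by exact_mod_cast hM
  have hN1 : (1 : ℝ) ≤ N := by exact_mod_cast hN
  have hRHS : 0 ≤ Λ⁻¹ * (M * (N : ℝ) ^ 2 / (RA * RB)) := by positivity
  by_cases hne : SA.Nonempty ∧ SB.Nonempty ∧ SU.Nonempty ∧ SV.Nonempty
  swap
  · have h0 : Soff h W b M N SA SB SU SV th c β = 0 := by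
      unfold Soff
      by_cases h1 : SA.Nonempty
      · by_cases h2 : SB.Nonempty
        · by_cases h3 : SU.Nonempty
          · have h4 : ¬ SV.Nonempty := fun h4 => hne ⟨h1, h2, h3, h4⟩
            rw [Finset.not_nonempty_iff_eq_empty] at h4
            subst h4
            simp
          · rw [Finset.not_nonempty_iff_eq_empty] at h3
            subst h3
            simp
        · rw [Finset.not_nonempty_iff_eq_empty] at h2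
          subst h2
          simp
      · rw [Finset.not_nonempty_iff_eq_empty] at h1
        subst h1
        simp
    rw [h0, abs_zero]
    exact hRHS
  obtain ⟨⟨a0, ha0⟩, ⟨r0, hr0⟩, ⟨u0, hu0⟩, ⟨v0, hv0⟩⟩ := hne
  -- all products are positive
  have nA : ∀ a ∈ SA, Pr a ≠ 0 := fun a ha => Pr_pos_of (by positivity) (hPa2 a ha)
  have nB : ∀ a ∈ SB, Pr a ≠ 0 := fun a ha => Pr_pos_of (by positivity) (hPr2 a ha)
  have nU : ∀ a ∈ SU, Pr a ≠ 0 := fun a ha => Pr_pos_of (by positivity) (hPu2 a ha)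
  have nV : ∀ a ∈ SV, Pr a ≠ 0 := fun a ha => Pr_pos_of (by positivity) (hPv2 a ha)
  have one_le : ∀ {x : Fin K → ℕ}, Pr x ≠ 0 → (1 : ℝ) ≤ Pr x := fun hx => by
    exact_mod_cast Nat.one_le_iff_ne_zero.2 hx
  have lA : 1 ≤ RA * Λ := (one_le (nA a0 ha0)).trans (hPa a0 ha0)
  have lB : 1 ≤ RB * Λ := (one_le (nB r0 hr0)).trans (hPr r0 hr0)
  have lU : 1 ≤ U * Λ := (one_le (nU u0 hu0)).trans (hPu u0 hu0)
  have hΛ1000 : 1 ≤ Λ ^ 1000 := one_le_pow₀ hΛ1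
  -- crude upper bounds
  have t1 : RA * RB ≤ N := by
    calc RA * RB = RA * RB * 1 := by ring
      _ ≤ RA * RB * Λ ^ 1000 := by gcongr
      _ ≤ N := s1
  have t2 : RA * RB * U ^ 2 ≤ M := by
    calc RA * RB * U ^ 2 = RA * RB * U ^ 2 * 1 := by ring
      _ ≤ RA * RB * U ^ 2 * Λ ^ 1000 := by gcongr
      _ ≤ M := s2
  have t3 : RA * V ^ 4 ≤ N := by
    have hH4 : 1 ≤ H ^ 4 := one_le_pow₀ hH1
    calc RA * V ^ 4 = RA * V ^ 4 * 1 * 1 := by ring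
      _ ≤ RA * V ^ 4 * H ^ 4 * Λ ^ 1000 := by gcongr
      _ ≤ N := s3
  have hΛX' : Λ ≤ X := by nlinarith
  have hN16 : (N : ℝ) ≤ 16 * X := by nlinarith
  have hM16 : (M : ℝ) ≤ 16 * X := by nlinarith
  have hX0 : 0 < X := by linarith
  have hX1 : 1 ≤ X := by linarith
  have hNX2 : (N : ℝ) ≤ X ^ 2 := by nlinarith
  have hMX2 : (M : ℝ) ≤ X ^ 2 := by nlinarith
  have tA : RA ≤ N * Λ := by
    calc RA = RA * 1 := by ring
      _ ≤ RA * (RB * Λ) := by gcongr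
      _ = (RA * RB) * Λ := by ring
      _ ≤ N * Λ := by gcongr
  have tB : RB ≤ N * Λ := by
    calc RB = 1 * RB := by ring
      _ ≤ (RA * Λ) * RB := by gcongr
      _ = (RA * RB) * Λ := by ring
      _ ≤ N * Λ := by gcongr
  have tU : U ^ 2 ≤ M * Λ ^ 2 := by
    calc U ^ 2 = 1 * 1 * U ^ 2 := by ring
      _ ≤ (RA * Λ) * (RB * Λ) * U ^ 2 := by gcongr
      _ = (RA * RB * U ^ 2) * Λ ^ 2 := by ring
      _ ≤ M * Λ ^ 2 := by gcongr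
  have tV : V ^ 4 ≤ N * Λ := by
    calc V ^ 4 = 1 * V ^ 4 := by ring
      _ ≤ (RA * Λ) * V ^ 4 := by gcongr
      _ = (RA * V ^ 4) * Λ := by ring
      _ ≤ N * Λ := by gcongr
  have hXle : ∀ {m n : ℕ}, m ≤ n → X ^ m ≤ X ^ n := fun h => pow_le_pow_right₀ hX1 h
  have bA : RA * Λ ≤ X ^ 3 := by
    calc RA * Λ ≤ (N * Λ) * Λ := by gcongr
      _ = N * Λ ^ 2 := by ring
      _ ≤ X ^ 2 * X := by gcongr
      _ = X ^ 3 := by ring
  have bB : RB * Λ ≤ X ^ 3 := by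
    calc RB * Λ ≤ (N * Λ) * Λ := by gcongr
      _ = N * Λ ^ 2 := by ring
      _ ≤ X ^ 2 * X := by gcongr
      _ = X ^ 3 := by ring
  have bU2 : U ^ 2 ≤ X ^ 3 := by
    calc U ^ 2 ≤ M * Λ ^ 2 := tU
      _ ≤ X ^ 2 * X := by gcongr
      _ = X ^ 3 := by ring
  have bU : U * Λ ≤ X ^ 5 := by
    have h1 : U ≤ 1 + U ^ 2 := by nlinarith [sq_nonneg (U - 1)]
    have h2 : 1 + X ^ 3 ≤ X ^ 4 := by
      have : 1 ≤ X ^ 3 := one_le_pow₀ hX1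
      nlinarith
    calc U * Λ ≤ X ^ 4 * X := by
          apply mul_le_mul (by linarith) hΛX' hΛ0.le (by positivity)
      _ = X ^ 5 := by ring
  have bV4 : V ^ 4 ≤ X ^ 3 := by
    calc V ^ 4 ≤ N * Λ := tV
      _ ≤ X ^ 2 * X := by gcongr
      _ = X ^ 3 := by ring
  have bV2 : V ^ 2 ≤ 2 * X ^ 2 := by
    have h1 : (V ^ 2) ^ 2 ≤ (2 * X ^ 2) ^ 2 := by
      calc (V ^ 2) ^ 2 = V ^ 4 := by ring
        _ ≤ X ^ 3 := bV4
        _ ≤ 4 * X ^ 4 := by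
            have : X ^ 3 ≤ X ^ 4 := hXle (by norm_num)
            have : 0 ≤ X ^ 4 := by positivity
            linarith
        _ = (2 * X ^ 2) ^ 2 := by ring
    exact le_of_sq h1 (by positivity)
  have bVL : (V * Λ) ^ 2 ≤ X ^ 4 := by
    calc (V * Λ) ^ 2 = V ^ 2 * Λ ^ 2 := by ring
      _ ≤ (2 * X ^ 2) * X := by gcongr
      _ = 2 * X ^ 3 := by ring
      _ ≤ X * X ^ 3 := by
          have : (2 : ℝ) ≤ X := by linarith
          gcongr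
      _ = X ^ 4 := by ring
  have bV : V * Λ ≤ X ^ 2 := by
    have : (V * Λ) ^ 2 ≤ (X ^ 2) ^ 2 := by
      calc (V * Λ) ^ 2 ≤ X ^ 4 := bVL
        _ = (X ^ 2) ^ 2 := by ring
    exact le_of_sq this (by positivity)
  -- divisor bounds
  have τK : ∀ n : ℕ, n ≠ 0 → (n : ℝ) ≤ X ^ 10 → tau n ^ K ≤ Λ := fun n h1 h2 =>
    (pow_le_pow_right₀ (tau_ge_one h1) (by omega)).trans (hτ n h1 h2)
  have τ2K : ∀ n : ℕ, n ≠ 0 → (n : ℝ) ≤ X ^ 10 → tau n ^ (2 * K) ≤ Λ := fun n h1 h2 =>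
    (pow_le_pow_right₀ (tau_ge_one h1) (by omega)).trans (hτ n h1 h2)
  have τ1 : ∀ n : ℕ, n ≠ 0 → (n : ℝ) ≤ X ^ 10 → tau n ≤ Λ := fun n h1 h2 => by
    calc tau n = tau n ^ 1 := (pow_one _).symm
      _ ≤ tau n ^ (2 * K + 1) := pow_le_pow_right₀ (tau_ge_one h1) (by omega)
      _ ≤ Λ := hτ n h1 h2
  have b3 : X ^ 3 ≤ X ^ 10 := hXle (by norm_num)
  have b5 : X ^ 5 ≤ X ^ 10 := hXle (by norm_num)
  have b2 : X ^ 2 ≤ X ^ 10 := hXle (by norm_num)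
  have cA : (SA.card : ℝ) ≤ Λ * (RA * Λ) :=
    card_tuple SA (RA * Λ) Λ (by positivity) hΛ0.le hPa nA (fun n h1 h2 => τK n h1 (by linarith))
  have cV : (SV.card : ℝ) ≤ V * Λ ^ 2 := by
    have := card_tuple SV (V * Λ) Λ (by positivity) hΛ0.le hPv nV (fun n h1 h2 => τK n h1 (by linarith))
    calc (SV.card : ℝ) ≤ Λ * (V * Λ) := this
      _ = V * Λ ^ 2 := by ring
  -- the sums of the greatest common divisors
  set Q : ℝ := RA * RB * U ^ 2 * Λ ^ 11 with hQdef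
  have hQ0 : 0 ≤ Q := by rw [hQdef]; positivity
  have hQ' : ∀ D : ℕ, D ≠ 0 → (D : ℝ) ≤ X ^ 10 → ∑ o ∈ OO SA SB SU, g3 D o ≤ Q := by
    intro D hD hDX
    have gB := gcd_tuple SB (RB * Λ) Λ (by positivity) hΛ0.le hPr nB (fun n h1 h2 => τK n h1 (by linarith))
      D hD (τ1 D hD hDX)
    have gU := gcd_tuple SU (U * Λ) Λ (by positivity) hΛ0.le hPu nU (fun n h1 h2 => τK n h1 (by linarith))
      D hD (τ1 D hD hDX)
    rw [sum_g3]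
    calc (SA.card : ℝ) * ((∑ r ∈ SB, (Nat.gcd D (Pr r) : ℝ)) *
        ((∑ u ∈ SU, (Nat.gcd D (Pr u) : ℝ)) * (∑ u ∈ SU, (Nat.gcd D (Pr u) : ℝ)))) ≤
        (Λ * (RA * Λ)) * ((Λ * (Λ * (RB * Λ))) * ((Λ * (Λ * (U * Λ))) * (Λ * (Λ * (U * Λ))))) := by
          gcongr
      _ = Q := by rw [hQdef]; ring
  -- the fourth root
  set E : ℝ := (RB * U ^ 2) ^ (1 / 4 : ℝ) with hEdef
  have hE0 : 0 < E := by rw [hEdef]; positivity
  have hE4 : E ^ 4 = RB * U ^ 2 := by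
    rw [hEdef, ← Real.rpow_natCast, ← Real.rpow_mul (by positivity)]
    norm_num
  set B : ℝ := Real.sqrt (N * (RA * V ^ 4)) + Real.sqrt N * E + N / E with hBdef
  have hB0 : 0 ≤ B := by rw [hBdef]; positivity
  set q0 : ℝ := RA * RB * U ^ 2 * V ^ 2 / Λ ^ 6 with hq0def
  have hq0 : 0 < q0 := by rw [hq0def]; positivity
  set Ym : ℝ := (M / q0) * ((N : ℝ) ^ 2 * V ^ 2 * Λ ^ 7) + N * V ^ 4 * Λ ^ 15 * B with hYm
  have hX3 : (1 : ℝ) ≤ X ^ 3 := one_le_pow₀ hX1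
  -- number of shifts
  set L : ℕ := ⌊N * Λ ^ 2 / (RA * RB)⌋₊ with hLdef
  have hLle : (L : ℝ) ≤ N * Λ ^ 2 / (RA * RB) := Nat.floor_le (by positivity)
  have hp : ∀ a ∈ SA, ∀ r ∈ SB, 0 < W * Pr a * Pr r ∧ N / (W * Pr a * Pr r) ≤ L := by
    intro a ha r hr
    have p1 : 0 < Pr a := Nat.pos_of_ne_zero (nA a ha)
    have p2 : 0 < Pr r := Nat.pos_of_ne_zero (nB r hr)
    refine ⟨by positivity, ?_⟩
    apply Nat.le_floor
    have hW1 : (1 : ℝ) ≤ W := by exact_mod_cast hW0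
    have h1 : ((N / (W * Pr a * Pr r) : ℕ) : ℝ) ≤ (N : ℝ) / ((W * Pr a * Pr r : ℕ) : ℝ) := Nat.cast_div_le
    refine h1.trans ?_
    have h2 : RA / Λ * (RB / Λ) ≤ ((W * Pr a * Pr r : ℕ) : ℝ) := by
      push_cast
      calc RA / Λ * (RB / Λ) ≤ (Pr a : ℝ) * Pr r := mul_le_mul (hPa2 a ha) (hPr2 r hr) (by positivity) (by positivity)
        _ = 1 * Pr a * Pr r := by ring
        _ ≤ (W : ℝ) * Pr a * Pr r := by gcongr
    calc (N : ℝ) / ((W * Pr a * Pr r : ℕ) : ℝ) ≤ N / (RA / Λ * (RB / Λ)) :=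
          div_le_div_of_nonneg_left hNr.le (by positivity) h2
      _ = N * Λ ^ 2 / (RA * RB) := by field_simp
  -- fixed outer variables
  set G : (Fin K → ℕ) × (Fin K → ℕ) × (Fin K → ℕ) × (Fin K → ℕ) → ℝ := fun o =>
    C * Λ * Λ ^ 2 * ∑ i ∈ range (Nat.log 2 ⌊X ^ 3⌋₊ + 2), min (M / q0) (1 / (2 : ℝ) ^ i) *
      Real.sqrt (FF N W (V * Λ) SV i o) with hGdef
  have hwpos : ∀ i : ℕ, 0 ≤ min ((M : ℝ) / q0) (1 / (2 : ℝ) ^ i) := fun i =>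
    le_min (by positivity) (by positivity)
  have hG0 : ∀ o, 0 ≤ G o := by
    intro o
    rw [hGdef]
    have : 0 ≤ ∑ i ∈ range (Nat.log 2 ⌊X ^ 3⌋₊ + 2), min ((M : ℝ) / q0) (1 / (2 : ℝ) ^ i) *
      Real.sqrt (FF N W (V * Λ) SV i o) :=
      Finset.sum_nonneg fun i _ => mul_nonneg (hwpos i) (Real.sqrt_nonneg _)
    positivity
  have hG : ∀ a ∈ SA, ∀ r ∈ SB, ∀ u1 ∈ SU, ∀ u2 ∈ SU, ∀ l : ℤ,
      |TT h W b M N SV c β a r u1 u2 l| ≤ G (a, r, u1, u2) := by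
    intro a ha r hr u1 hu1 u2 hu2 l
    by_cases hsf : Squarefree (W * Pr a * Pr r * Pr u1 * Pr u2)
    · have hV1 : (W * Pr a : ℝ) * (V * Λ) ^ 4 ≤ N := by
        have hH4 : 1 ≤ H ^ 4 := one_le_pow₀ hH1
        have h6 : Λ ^ 6 ≤ Λ ^ 1000 := pow_le_pow_right₀ hΛ1 (by norm_num)
        calc (W * Pr a : ℝ) * (V * Λ) ^ 4 ≤ (Λ * (RA * Λ)) * (V * Λ) ^ 4 := by
              have := hPa a ha
              gcongr
          _ = RA * V ^ 4 * 1 * Λ ^ 6 := by ring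
          _ ≤ RA * V ^ 4 * H ^ 4 * Λ ^ 1000 := by gcongr
          _ ≤ N := s3
      have hbound := hOA a r u1 u2 l (kap c a r u1 u2) (V * Λ) q0 Λ hsf hPv hV1 hq0
        (kap_le c hcb a r u1 u2) (by
          intro v1 hv1 v2 hv2 hk
          have hs := kap_sf W c hcs a r u1 u2 v1 v2 hk
          refine ⟨hs, ?_, ?_⟩
          · have hW1 : (1 : ℝ) ≤ W := by exact_mod_cast hW0
            push_cast
            calc q0 = 1 * (RA / Λ) * (RB / Λ) * (U / Λ) * (U / Λ) * (V / Λ) * (V / Λ) := by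
                  rw [hq0def]; field_simp
              _ ≤ (W : ℝ) * Pr a * Pr r * Pr u1 * Pr u2 * Pr v1 * Pr v2 := by
                  have g1 := hPa2 a ha
                  have g2 := hPr2 r hr
                  have g3 := hPu2 u1 hu1
                  have g4 := hPu2 u2 hu2
                  have g5 := hPv2 v1 hv1
                  have g6 := hPv2 v2 hv2
                  gcongr
          · push_cast
            have hV2 : V ^ 2 ≤ 1 + N * Λ := by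
              have h1 : V ^ 2 ≤ 1 + V ^ 4 := by nlinarith [sq_nonneg (V ^ 2 - 1)]
              linarith
            calc (W : ℝ) * Pr a * Pr r * Pr u1 * Pr u2 * Pr v1 * Pr v2 ≤
                  Λ * (RA * Λ) * (RB * Λ) * (U * Λ) * (U * Λ) * (V * Λ) * (V * Λ) := by
                  have g1 := hPa a ha
                  have g2 := hPr r hr
                  have g3 := hPu u1 hu1
                  have g4 := hPu u2 hu2
                  have g5 := hPv v1 hv1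
                  have g6 := hPv v2 hv2
                  gcongr
              _ = (RA * RB * U ^ 2 * Λ ^ 7) * V ^ 2 := by ring
              _ ≤ (RA * RB * U ^ 2 * Λ ^ 1000) * V ^ 2 := by
                  have h7 : Λ ^ 7 ≤ Λ ^ 1000 := pow_le_pow_right₀ hΛ1 (by norm_num)
                  gcongr
              _ ≤ M * (1 + N * Λ) := by gcongr
              _ = M + (M * N) * Λ := by ring
              _ ≤ 16 * X + 16 * X * X := by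
                  have : (M * N : ℝ) * Λ ≤ 16 * X * X := by gcongr
                  linarith
              _ ≤ X ^ 3 := by nlinarith [mul_pos hX0 hX0])
        hβ
      exact hbound
    · have h0 : TT h W b M N SV c β a r u1 u2 l = 0 := by
        unfold TT
        refine Finset.sum_eq_zero fun v1 _ => Finset.sum_eq_zero fun v2 _ => ?_
        have hk : kap c a r u1 u2 v1 v2 = 0 := by
          by_contra hk
          apply hsf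
          have hs := kap_sf W c hcs a r u1 u2 v1 v2 hk
          exact hs.squarefree_of_dvd ⟨Pr v1 * Pr v2, by ring⟩
        rw [hk, zero_mul]
      rw [h0, abs_zero]
      exact hG0 _
  have hmain := soff_le h W b M N SA SB SU SV th c β L hp Λ hΛ0.le hth G hG
  -- the sum of G
  have hsumG : ∑ o ∈ OO SA SB SU, G o ≤ Λ ^ 5 * Q * Real.sqrt Ym := by
    have h1 : ∑ o ∈ OO SA SB SU, G o = C * Λ * Λ ^ 2 * ∑ i ∈ range (Nat.log 2 ⌊X ^ 3⌋₊ + 2),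
        min (M / q0) (1 / (2 : ℝ) ^ i) * ∑ o ∈ OO SA SB SU, Real.sqrt (FF N W (V * Λ) SV i o) := by
      rw [hGdef, ← Finset.mul_sum, Finset.sum_comm]
      congr 1
      refine Finset.sum_congr rfl fun i _ => ?_
      rw [Finset.mul_sum]
    rw [h1]
    have h2 : ∀ i ∈ range (Nat.log 2 ⌊X ^ 3⌋₊ + 2),
        min (M / q0) (1 / (2 : ℝ) ^ i) * ∑ o ∈ OO SA SB SU, Real.sqrt (FF N W (V * Λ) SV i o) ≤
        Q * Real.sqrt Ym := by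
      intro i hi
      have h2i := two_pow_le (X ^ 3) hX3 i hi
      have hcv2 : (SV.card : ℝ) ^ 2 ≤ (V * Λ ^ 2) ^ 2 := by gcongr
      have hnle : 2 * (2 ^ (i + 1) * (V * Λ) ^ 2) ≤ X ^ 10 := by
        calc 2 * (2 ^ (i + 1) * (V * Λ) ^ 2) ≤ 2 * ((4 * X ^ 3) * X ^ 4) := by gcongr
          _ = 8 * X ^ 7 := by ring
          _ ≤ X * X ^ 7 := by
              have : (8 : ℝ) ≤ X := by linarith
              gcongr
          _ = X ^ 8 := by ring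
          _ ≤ X ^ 10 := hXle (by norm_num)
      have hZ : (((Ix i SV ×ˢ Ix i SV).filter (fun p => Dt p.1 p.2 = 0)).card : ℝ) ≤
          2 ^ (i + 2) * (V * Λ ^ 2) ^ 2 * Λ := by
        have h3 := card_Dt_zero i SV (V * Λ) Λ nV hPv (fun n h4 h5 => τ2K n h4 (by
          have : 0 ≤ 2 ^ (i + 1) * (V * Λ) ^ 2 := by positivity
          linarith))
        refine h3.trans ?_
        gcongr
      have hP : (((Ix i SV ×ˢ Ix i SV).filter (fun p => Dt p.1 p.2 ≠ 0)).card : ℝ) ≤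
          (2 ^ (i + 2) * (V * Λ ^ 2) ^ 2) ^ 2 := by
        have h3 : (((Ix i SV ×ˢ Ix i SV).filter (fun p => Dt p.1 p.2 ≠ 0)).card : ℝ) ≤
            ((Ix i SV ×ˢ Ix i SV).card : ℝ) := by exact_mod_cast Finset.card_filter_le _ _
        refine h3.trans ?_
        rw [Finset.card_product]
        push_cast
        have h4 := card_Ix i SV
        calc ((Ix i SV).card : ℝ) * ((Ix i SV).card : ℝ) = ((Ix i SV).card : ℝ) ^ 2 := by ring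
          _ ≤ (2 ^ (i + 2) * (SV.card : ℝ) ^ 2) ^ 2 := by gcongr
          _ ≤ _ := by gcongr
      have h5 := sum_sqrt_FF N W Λ RA RB U V E B Q (2 ^ (i + 2) * (V * Λ ^ 2) ^ 2 * Λ)
        ((2 ^ (i + 2) * (V * Λ ^ 2) ^ 2) ^ 2) SA SB SU SV i hΛ1 hRA hRB hU hV hE0 hE4 hWΛ hPa hPr hPr2
        hPu hPu2 hBdef hZ hP hQ0 (by
          intro D hD hDd
          apply hQ' D hD
          rcases hDd with h6 | ⟨p, hp, h6⟩
          · rw [h6]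
            push_cast
            exact one_le_pow₀ hX1
          · rw [h6]
            exact (Dt_le i SV (V * Λ) hPv p hp).trans hnle)
      have h6 := wt_le M N V Λ B q0 i hMr.le hNr.le hV.le hΛ hB0 hq0
      calc min (M / q0) (1 / (2 : ℝ) ^ i) * ∑ o ∈ OO SA SB SU, Real.sqrt (FF N W (V * Λ) SV i o)
          ≤ min (M / q0) (1 / (2 : ℝ) ^ i) * (Q * Real.sqrt (N * (N * (2 ^ (i + 2) * (V * Λ ^ 2) ^ 2 * Λ) +
            (2 ^ (i + 2) * (V * Λ ^ 2) ^ 2) ^ 2 * (Λ ^ 3 * B)))) :=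
            mul_le_mul_of_nonneg_left h5 (hwpos i)
        _ = Q * (min (M / q0) (1 / (2 : ℝ) ^ i) * Real.sqrt (N * (N * (2 ^ (i + 2) * (V * Λ ^ 2) ^ 2 * Λ) +
            (2 ^ (i + 2) * (V * Λ ^ 2) ^ 2) ^ 2 * (Λ ^ 3 * B)))) := by ring
        _ ≤ Q * Real.sqrt Ym := mul_le_mul_of_nonneg_left h6 hQ0
    have h3 := Finset.sum_le_sum h2
    rw [Finset.sum_const, Finset.card_range, nsmul_eq_mul] at h3
    have hQY : 0 ≤ Q * Real.sqrt Ym := by positivity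
    calc C * Λ * Λ ^ 2 * ∑ i ∈ range (Nat.log 2 ⌊X ^ 3⌋₊ + 2),
        min (M / q0) (1 / (2 : ℝ) ^ i) * ∑ o ∈ OO SA SB SU, Real.sqrt (FF N W (V * Λ) SV i o)
        ≤ C * Λ * Λ ^ 2 * (((Nat.log 2 ⌊X ^ 3⌋₊ + 2 : ℕ) : ℝ) * (Q * Real.sqrt Ym)) :=
          mul_le_mul_of_nonneg_left h3 (by positivity)
      _ ≤ Λ * Λ * Λ ^ 2 * (Λ * (Q * Real.sqrt Ym)) := by gcongr
      _ = Λ ^ 5 * Q * Real.sqrt Ym := by ring
  have hfin := fin_ineq M N RA RB U V E B H Λ q0 hMr hNr hRA hRB hU hV hE0 hE4 hΛ hBdef hH1 hH hq0def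
    s2 s3 s4 s5
  have hsq0 : 0 ≤ Real.sqrt Ym := Real.sqrt_nonneg _
  calc |Soff h W b M N SA SB SU SV th c β| ≤ Λ * (2 * L) * ∑ o ∈ OO SA SB SU, G o := hmain
    _ ≤ Λ * (2 * (N * Λ ^ 2 / (RA * RB))) * (Λ ^ 5 * Q * Real.sqrt Ym) := by
        have : 0 ≤ ∑ o ∈ OO SA SB SU, G o := Finset.sum_nonneg fun o _ => hG0 o
        gcongr
    _ = 2 * (Λ ^ 19 * (N * U ^ 2) * Real.sqrt Ym) := by
        rw [hQdef]
        field_simp
    _ ≤ Λ * (Λ ^ 19 * (N * U ^ 2) * Real.sqrt Ym) := by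
        have : (2 : ℝ) ≤ Λ := by linarith
        gcongr
    _ = Λ⁻¹ * (Λ ^ 21 * (N * U ^ 2) * Real.sqrt Ym) := by
        field_simp
    _ ≤ Λ⁻¹ * (M * (N : ℝ) ^ 2 / (RA * RB)) :=
        mul_le_mul_of_nonneg_left hfin (by positivity)

end Pool.Agent.Y826.ZL.OB
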